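import Pool.Agent.Helper72.EP.Spec2

/-! # CER3: a bad hull path is closable -/

namespace ErdPos

open Finset

lemma cer3_d9 {V : Type} [DecidableEq V] {a b c a' b' c' : Finset V} (h1 : Disjoint a a')
    (h2 : Disjoint a b') (h3 : Disjoint a c') (h4 : Disjoint b a') (h5 : Disjoint b b')
    (h6 : Disjoint b c') (h7 : Disjoint c a') (h8 : Disjoint c b') (h9 : Disjoint c c') :
    Disjoint (a ∪ b ∪ c) (a' ∪ b' ∪ c') := by
  have key : ∀ {x : Finset V}, Disjoint x a' → Disjoint x b' → Disjoint x c' →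
      Disjoint x (a' ∪ b' ∪ c') := by
    intro x i1 i2 i3
    rw [Finset.disjoint_union_right, Finset.disjoint_union_right]
    exact ⟨⟨i1, i2⟩, i3⟩
  rw [Finset.disjoint_union_left, Finset.disjoint_union_left]
  exact ⟨⟨key h1 h2 h3, key h4 h5 h6⟩, key h7 h8 h9⟩

/-- closable pieces from two disjoint connected sets -/
lemma cer3_gen {V : Type} [DecidableEq V] {G : SimpleGraph V} {F : Finset V → Prop}
    {C C' K0 M1 M2 : Finset V} {u1 p1 u2 p2 : V}
    (hK0 : K0 ⊆ C \ C')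
    (hM1 : M1 ⊆ C) (hM2 : M2 ⊆ C) (c1 : Conn G M1) (c2 : Conn G M2) (hd : Disjoint M1 M2)
    (hu1 : u1 ∈ M1) (hp1 : p1 ∈ M1) (hu2 : u2 ∈ M2) (hp2 : p2 ∈ M2)
    (hu1' : u1 ∉ C') (hp1' : p1 ∉ C') (hu2' : u2 ∉ C') (hp2' : p2 ∉ C')
    (fin : ∀ N1 N2, N1 ⊆ M1 ∪ M2 ∪ C' → N2 ⊆ M1 ∪ M2 ∪ C' → Conn G N1 → Conn G N2 →
      Disjoint N1 N2 → u1 ∈ N1 → u2 ∈ N2 → ((p1 ∈ N1 ∧ p2 ∈ N2) ∨ (p2 ∈ N1 ∧ p1 ∈ N2)) →
      Has F (K0 ∪ (N1 ∪ N2))) : Clos G F C C' := by
  have hM1' : M1 \ C' ⊆ C \ C' := sdiff_subset_sdiff hM1 subset_rfl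
  have hM2' : M2 \ C' ⊆ C \ C' := sdiff_subset_sdiff hM2 subset_rfl
  have j1 : M1 \ C' ⊆ M1 ∪ M2 ∪ C' :=
    sdiff_subset.trans (subset_union_left.trans subset_union_left)
  have j2 : M2 \ C' ⊆ M1 ∪ M2 ∪ C' :=
    sdiff_subset.trans (subset_union_right.trans subset_union_left)
  have j3 : C' ⊆ M1 ∪ M2 ∪ C' := subset_union_right
  -- disjointness facts
  have dM : ∀ {a b : Finset V}, a ⊆ M1 \ C' → b ⊆ M2 \ C' → Disjoint a b := fun ha hb =>
    Finset.disjoint_of_subset_left (ha.trans sdiff_subset)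
      (Finset.disjoint_of_subset_right (hb.trans sdiff_subset) hd)
  have dC1 : ∀ {a b : Finset V}, a ⊆ M1 \ C' → b ⊆ C' → Disjoint a b := fun ha hb => by
    rw [Finset.disjoint_left]
    exact fun x hx hx' => (mem_sdiff.1 (ha hx)).2 (hb hx')
  have dC2 : ∀ {a b : Finset V}, a ⊆ M2 \ C' → b ⊆ C' → Disjoint a b := fun ha hb => by
    rw [Finset.disjoint_left]
    exact fun x hx hx' => (mem_sdiff.1 (ha hx)).2 (hb hx')
  have conn3 : ∀ {a b L : Finset V} {x y : V}, Conn G a → Conn G b → Conn G L → x ∈ a → y ∈ b →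
      Ad G x L → Ad G y L → Conn G (a ∪ L ∪ b) := by
    intro a b L x y ha hb hL hx hy hxL hyL
    have h1 : Conn G (a ∪ L) := ha.union_of_ad hL hx hxL
    have h2 : Conn G (b ∪ (a ∪ L)) := hb.union_of_ad h1 hy (hyL.mono subset_union_right)
    rwa [union_comm] at h2
  rcases legs c1 hu1 hp1 hu1' hp1' with ⟨N1, n1, n2, n3, n4⟩ |
    ⟨a1, b1, q1, q2, q3, q4, q5, q6, q7, x1, hx1, y1, hy1, hx1', hy1'⟩ <;>
  rcases legs c2 hu2 hp2 hu2' hp2' with ⟨N2, m1, m2, m3, m4⟩ |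
    ⟨a2, b2, r1, r2, r3, r4, r5, r6, r7, x2, hx2, y2, hy2, hx2', hy2'⟩
  · refine ⟨K0 ∪ (N1 ∪ N2), [], union_subset hK0 (union_subset (n1.trans hM1') (m1.trans hM2')),
      List.nodup_nil, by simp, ?_⟩
    exact fin N1 N2 (n1.trans j1) (m1.trans j2) n2 m2 (dM n1 m1) n3 m3 (Or.inl ⟨n4, m4⟩)
  · refine ⟨K0 ∪ (N1 ∪ (a2 ∪ b2)), [x2, y2], union_subset hK0 (union_subset (n1.trans hM1')
      (union_subset (r1.trans hM2') (r2.trans hM2'))), ?_, ?_, ?_⟩
    · have hne : x2 ≠ y2 := by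
        rintro rfl
        exact Finset.disjoint_left.1 r3 hx2 hy2
      simp [hne]
    · intro x hx
      simp only [List.mem_cons, List.not_mem_nil, or_false] at hx
      rcases hx with rfl | rfl
      · exact ⟨by simp [hx2], hx2'⟩
      · exact ⟨by simp [hy2], hy2'⟩
    · intro L hL cL hx hy
      have h1 := fin N1 (a2 ∪ L ∪ b2) (n1.trans j1)
        (union_subset (union_subset (r1.trans j2) (hL.trans j3)) (r2.trans j2)) n2
        (conn3 r4 r5 cL hx2 hy2 hx hy)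
        (by
          rw [Finset.disjoint_union_right, Finset.disjoint_union_right]
          exact ⟨⟨dM n1 r1, dC1 n1 hL⟩, dM n1 r2⟩)
        n3 (by simp [r6]) (Or.inl ⟨n4, by simp [r7]⟩)
      refine h1.mono ?_
      intro x hx
      simp only [mem_union] at hx ⊢
      tauto
  · refine ⟨K0 ∪ ((a1 ∪ b1) ∪ N2), [x1, y1], union_subset hK0 (union_subset
      (union_subset (q1.trans hM1') (q2.trans hM1')) (m1.trans hM2')), ?_, ?_, ?_⟩
    · have hne : x1 ≠ y1 := by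
        rintro rfl
        exact Finset.disjoint_left.1 q3 hx1 hy1
      simp [hne]
    · intro x hx
      simp only [List.mem_cons, List.not_mem_nil, or_false] at hx
      rcases hx with rfl | rfl
      · exact ⟨by simp [hx1], hx1'⟩
      · exact ⟨by simp [hy1], hy1'⟩
    · intro L hL cL hx hy
      have h1 := fin (a1 ∪ L ∪ b1) N2
        (union_subset (union_subset (q1.trans j1) (hL.trans j3)) (q2.trans j1)) (m1.trans j2)
        (conn3 q4 q5 cL hx1 hy1 hx hy) m2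
        (by
          rw [Finset.disjoint_union_left, Finset.disjoint_union_left]
          exact ⟨⟨dM q1 m1, (dC2 m1 hL).symm⟩, dM q2 m1⟩)
        (by simp [q6]) m3 (Or.inl ⟨by simp [q7], m4⟩)
      refine h1.mono ?_
      intro x hx
      simp only [mem_union] at hx ⊢
      tauto
  · refine ⟨K0 ∪ ((a1 ∪ b1) ∪ (a2 ∪ b2)), [x1, x2, y1, y2], union_subset hK0 (union_subset
      (union_subset (q1.trans hM1') (q2.trans hM1'))
      (union_subset (r1.trans hM2') (r2.trans hM2'))), ?_, ?_, ?_⟩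
    · have h12 : x1 ≠ x2 := by
        rintro rfl
        exact Finset.disjoint_left.1 (dM q1 r1) hx1 hx2
      have h13 : x1 ≠ y1 := by
        rintro rfl
        exact Finset.disjoint_left.1 q3 hx1 hy1
      have h14 : x1 ≠ y2 := by
        rintro rfl
        exact Finset.disjoint_left.1 (dM q1 r2) hx1 hy2
      have h23 : x2 ≠ y1 := by
        rintro rfl
        exact Finset.disjoint_left.1 (dM q2 r1) hy1 hx2
      have h24 : x2 ≠ y2 := by
        rintro rfl
        exact Finset.disjoint_left.1 r3 hx2 hy2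
      have h34 : y1 ≠ y2 := by
        rintro rfl
        exact Finset.disjoint_left.1 (dM q2 r2) hy1 hy2
      simp [h12, h13, h14, h23, h24, h34]
    · intro x hx
      simp only [List.mem_cons, List.not_mem_nil, or_false] at hx
      rcases hx with rfl | rfl | rfl | rfl
      · exact ⟨by simp [hx1], hx1'⟩
      · exact ⟨by simp [hx2], hx2'⟩
      · exact ⟨by simp [hy1], hy1'⟩
      · exact ⟨by simp [hy2], hy2'⟩
    · intro L L' hL hL' dL cL cL' hx hx' hor
      rcases hor with ⟨h1, h2⟩ | ⟨h1, h2⟩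
      · have h3 := fin (a1 ∪ L ∪ b1) (a2 ∪ L' ∪ b2)
          (union_subset (union_subset (q1.trans j1) (hL.trans j3)) (q2.trans j1))
          (union_subset (union_subset (r1.trans j2) (hL'.trans j3)) (r2.trans j2))
          (conn3 q4 q5 cL hx1 hy1 hx h1) (conn3 r4 r5 cL' hx2 hy2 hx' h2)
          (cer3_d9 (dM q1 r1) (dC1 q1 hL') (dM q1 r2) (dC2 r1 hL).symm dL (dC2 r2 hL).symm
            (dM q2 r1) (dC1 q2 hL') (dM q2 r2))
          (by simp [q6]) (by simp [r6]) (Or.inl ⟨by simp [q7], by simp [r7]⟩)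
        refine h3.mono ?_
        intro x hx
        simp only [mem_union] at hx ⊢
        tauto
      · have h3 := fin (a1 ∪ L ∪ b2) (a2 ∪ L' ∪ b1)
          (union_subset (union_subset (q1.trans j1) (hL.trans j3)) (r2.trans j2))
          (union_subset (union_subset (r1.trans j2) (hL'.trans j3)) (q2.trans j1))
          (conn3 q4 r5 cL hx1 hy2 hx h1) (conn3 r4 q5 cL' hx2 hy1 hx' h2)
          (cer3_d9 (dM q1 r1) (dC1 q1 hL') q3 (dC2 r1 hL).symm dL (dC1 q2 hL).symm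
            r3.symm (dC2 r2 hL') (dM q2 r2).symm)
          (by simp [q6]) (by simp [r6]) (Or.inr ⟨by simp [r7], by simp [q7]⟩)
        refine h3.mono ?_
        intro x hx
        simp only [mem_union] at hx ⊢
        tauto

theorem st_CER3 (h1 : ST_HUL) (h2 : ST_HU5) (h3 : ST_THE) : ST_CER3 := by
  intro V _ _ G F C hctx φ hF A u v S T hHP hbad
  obtain ⟨hA, hZ, huv, hpth, hSA⟩ := hHP
  obtain ⟨P1, P2, hP1, hP2, hd, cP1, cP2, ⟨pu1, hpu1, au1⟩, ⟨pv1, hpv1, av1⟩,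
    ⟨pu2, hpu2, au2⟩, ⟨pv2, hpv2, av2⟩⟩ := h2 V G F C hctx A u v hA hZ huv
  obtain ⟨hAC, _, _, _, _, hZA, _, _, hdisA, _, _⟩ := (h1 V G F C hctx).2 A hA
  have huA : u ∈ A := hZA (by rw [hZ]; simp)
  have hvA : v ∈ A := hZA (by rw [hZ]; simp)
  have hP1C : P1 ⊆ C := hP1.trans sdiff_subset
  have hP2C : P2 ⊆ C := hP2.trans sdiff_subset
  refine ⟨{u, v, pu1, pv1, pu2, pv2}, ?_, ?_, ?_⟩
  · intro x hx
    simp only [mem_insert, mem_singleton] at hx
    rcases hx with rfl | rfl | rfl | rfl | rfl | rfl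
    · exact hAC huA
    · exact hAC hvA
    · exact hP1C hpu1
    · exact hP1C hpv1
    · exact hP2C hpu2
    · exact hP2C hpv2
  · exact (card_le_six).trans (by norm_num)
  · intro C' hC' cC' _hasC'
    have hnot : ∀ x ∈ ({u, v, pu1, pv1, pu2, pv2} : Finset V), x ∉ C' := fun x hx hx' =>
      (mem_sdiff.1 (hC' hx')).2 hx
    have hC'C : C' ⊆ C := hC'.trans sdiff_subset
    have hdA : Disjoint C' A := by
      refine hdisA C' hC'C cC' _hasC' ?_
      rw [hZ, Finset.disjoint_right]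
      intro x hx
      simp only [mem_insert, mem_singleton] at hx
      rcases hx with rfl | rfl
      · exact hnot _ (by simp)
      · exact hnot _ (by simp)
    have hSC : S ⊆ C \ C' := fun x hx =>
      mem_sdiff.2 ⟨hAC (hSA hx), fun hx' => Finset.disjoint_left.1 hdA hx' (hSA hx)⟩
    refine cer3_gen (K0 := S) hSC hP1C hP2C cP1 cP2 hd hpu1 hpv1 hpu2 hpv2
      (hnot _ (by simp)) (hnot _ (by simp)) (hnot _ (by simp)) (hnot _ (by simp)) ?_
    intro N1 N2 hN1 hN2 cN1 cN2 dN m1 m2 hor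
    have hdN : ∀ N : Finset V, N ⊆ P1 ∪ P2 ∪ C' → Disjoint N S := by
      intro N hN
      rw [Finset.disjoint_left]
      intro x hx hxS
      have hxA := hSA hxS
      have := hN hx
      simp only [mem_union] at this
      rcases this with (h | h) | h
      · exact (mem_sdiff.1 (hP1 h)).2 hxA
      · exact (mem_sdiff.1 (hP2 h)).2 hxA
      · exact Finset.disjoint_left.1 hdA h hxA
    have hv : Ad G v N1 ∧ Ad G v N2 := by
      rcases hor with ⟨h, h'⟩ | ⟨h, h'⟩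
      · exact ⟨⟨pv1, h, av1⟩, ⟨pv2, h', av2⟩⟩
      · exact ⟨⟨pv2, h, av2⟩, ⟨pv1, h', av1⟩⟩
    obtain ⟨S', T', hc, hsub, hb⟩ := h3 V G φ u v S T N1 N2 huv hpth cN1 cN2
      (hdN N1 hN1) (hdN N2 hN2) dN ⟨pu1, m1, au1⟩ hv.1 ⟨pu2, m2, au2⟩ hv.2 hbad
    exact ⟨S', hF S' T' hc hb, hsub⟩

end ErdPos
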