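import Pool.Agent.Helper8.EP.CER3

/-! # CER4: a conflict is closable -/

namespace ErdPos

open Finset

lemma cer4_HPsymm {V : Type} [DecidableEq V] {G : SimpleGraph V} {F : Finset V → Prop}
    {C A : Finset V} {u v : V} {S : Finset V} {T : Finset (Sym2 V)}
    (h : HP G F C A u v S T) : HP G F C A v u S T :=
  ⟨h.1, by rw [h.2.1, Finset.pair_comm], h.2.2.1.symm, h.2.2.2.1.symm, h.2.2.2.2⟩

lemma cer4_core (h2 : ST_HUL) (h5 : ST_CONF)
    (V : Type) [Fintype V] [DecidableEq V] (G : SimpleGraph V) (F : Finset V → Prop)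
    (C : Finset V) (hctx : Ctx G F C) (φ : Sym2 V → ℤ)
    (hF : ∀ S T, Cyc G S T → ¬ (∑ e ∈ T, φ e = 0 ∨ ∑ e ∈ T, φ e = 1) → F S)
    (hpos : ∀ A u v S T, HP G F C A u v S T → 0 ≤ ∑ e ∈ T, φ e)
    (A : Finset V) (u v : V) (S : Finset V) (T : Finset (Sym2 V))
    (A' : Finset V) (u' v' : V) (S' : Finset V) (T' : Finset (Sym2 V)) (hne : A ≠ A')
    (hHP : HP G F C A u v S T) (hHP' : HP G F C A' u' v' S' T')
    (hs : ∑ e ∈ T, φ e = 1) (hs' : ∑ e ∈ T', φ e = 1)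
    (M1 M2 : Finset V) (hM1 : M1 ⊆ C) (hM2 : M2 ⊆ C) (c1 : Conn G M1) (c2 : Conn G M2)
    (hd : Disjoint M1 M2) (hu : u ∈ M1) (hv : v ∈ M2) (hu' : u' ∈ M1) (hv' : v' ∈ M2) :
    LC G F C := by
  obtain ⟨hAC, _, _, _, _, hZA, _, _, hdisA, _, _⟩ := (h2 V G F C hctx).2 A hHP.1
  obtain ⟨hAC', _, _, _, _, hZA', _, _, hdisA', _, _⟩ := (h2 V G F C hctx).2 A' hHP'.1
  refine ⟨{u, v, u', v'}, ?_, ?_, ?_⟩
  · intro x hx
    simp only [mem_insert, mem_singleton] at hx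
    rcases hx with rfl | rfl | rfl | rfl
    · exact hM1 hu
    · exact hM2 hv
    · exact hM1 hu'
    · exact hM2 hv'
  · exact (card_le_four).trans (by norm_num)
  · intro C' hC' cC' hasC'
    have hnot : ∀ x ∈ ({u, v, u', v'} : Finset V), x ∉ C' := fun x hx hx' =>
      (mem_sdiff.1 (hC' hx')).2 hx
    have hC'C : C' ⊆ C := hC'.trans sdiff_subset
    have hdA : Disjoint C' A := by
      refine hdisA C' hC'C cC' hasC' ?_
      rw [hHP.2.1, Finset.disjoint_right]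
      intro x hx
      simp only [mem_insert, mem_singleton] at hx
      rcases hx with rfl | rfl
      · exact hnot _ (by simp)
      · exact hnot _ (by simp)
    have hdA' : Disjoint C' A' := by
      refine hdisA' C' hC'C cC' hasC' ?_
      rw [hHP'.2.1, Finset.disjoint_right]
      intro x hx
      simp only [mem_insert, mem_singleton] at hx
      rcases hx with rfl | rfl
      · exact hnot _ (by simp)
      · exact hnot _ (by simp)
    have hSC : S ⊆ C \ C' := fun x hx =>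
      mem_sdiff.2 ⟨hAC (hHP.2.2.2.2 hx), fun hx' =>
        Finset.disjoint_left.1 hdA hx' (hHP.2.2.2.2 hx)⟩
    have hSC' : S' ⊆ C \ C' := fun x hx =>
      mem_sdiff.2 ⟨hAC' (hHP'.2.2.2.2 hx), fun hx' =>
        Finset.disjoint_left.1 hdA' hx' (hHP'.2.2.2.2 hx)⟩
    refine cer3_gen (K0 := S ∪ S') (union_subset hSC hSC') hM1 hM2 c1 c2 hd hu hu' hv hv'
      (hnot _ (by simp)) (hnot _ (by simp)) (hnot _ (by simp)) (hnot _ (by simp)) ?_
    intro N1 N2 hN1 hN2 cN1 cN2 dN m1 m2 hor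
    have hsubC : M1 ∪ M2 ∪ C' ⊆ C := union_subset (union_subset hM1 hM2) hC'C
    obtain ⟨S0, T0, hc, hsub, hb⟩ := h5 V G F C hctx φ hpos A u v S T A' u' v' S' T' hne hHP hHP'
      hs hs' N1 N2 (hN1.trans hsubC) (hN2.trans hsubC) cN1 cN2 dN m1 m2 hor
    exact ⟨S0, hF S0 T0 hc (by omega), hsub⟩

theorem st_CER4 (h1 : ST_ROB) (h2 : ST_HUL) (h3 : ST_HU3) (h4 : ST_MENW) (h5 : ST_CONF) :
    ST_CER4 := by
  intro V _ _ G F C hctx φ hF hpos A u v S T A' u' v' S' T' hne hHP hHP' hs hs'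
  have _ := h1
  have _ := h3
  obtain ⟨hAC, _, _, _, _, hZA, hRobA, _, _, _, _⟩ := (h2 V G F C hctx).2 A hHP.1
  obtain ⟨hAC', _, _, _, _, hZA', hRobA', _, _, _, _⟩ := (h2 V G F C hctx).2 A' hHP'.1
  rw [hHP.2.1] at hZA hRobA
  rw [hHP'.2.1] at hZA' hRobA'
  have huv := hHP.2.2.1
  have huv' := hHP'.2.2.1
  have ru := hRobA u (by simp)
  have rv := hRobA v (by simp)
  have ru' := hRobA' u' (by simp)
  have rv' := hRobA' v' (by simp)
  have hmen := h4 V G C {u, v} {u', v'} 2 (hZA.trans hAC) (hZA'.trans hAC') (by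
    intro U hU hUd
    by_contra hlt
    push Not at hlt
    have hle : (Nb G C U ∪ ({u, v} \ U)).card ≤ 1 := by omega
    have hsubC : Nb G C U ∪ ({u, v} \ U) ⊆ C :=
      union_subset Nb_subset (sdiff_subset.trans (hZA.trans hAC))
    obtain ⟨g, hgC, hg⟩ : ∃ g ∈ C, Nb G C U ∪ ({u, v} \ U) ⊆ {g} := by
      rcases (Nb G C U ∪ ({u, v} \ U)).eq_empty_or_nonempty with h | ⟨g, hg⟩
      · exact ⟨u, ru.1, by rw [h]; exact empty_subset _⟩
      · refine ⟨g, hsubC hg, fun x hx => ?_⟩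
        rw [mem_singleton]
        exact card_le_one.1 hle x hx g hg
    obtain ⟨a, haU, ra, hag⟩ : ∃ a ∈ U, Rob G F C a ∧ g ≠ a := by
      by_cases hgu : g = u
      · refine ⟨v, ?_, rv, fun h => huv (hgu ▸ h)⟩
        by_contra hvU
        have : v ∈ ({g} : Finset V) := hg (mem_union_right _ (mem_sdiff.2 ⟨by simp, hvU⟩))
        rw [mem_singleton] at this
        exact huv (hgu ▸ this.symm)
      · refine ⟨u, ?_, ru, hgu⟩
        by_contra huU
        have : u ∈ ({g} : Finset V) := hg (mem_union_right _ (mem_sdiff.2 ⟨by simp, huU⟩))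
        rw [mem_singleton] at this
        exact hgu this.symm
    obtain ⟨b, hbU, rb, hbg⟩ : ∃ b, b ∉ U ∧ Rob G F C b ∧ g ≠ b := by
      by_cases hgu : g = u'
      · exact ⟨v', Finset.disjoint_right.1 hUd (by simp), rv', fun h => huv' (hgu ▸ h)⟩
      · exact ⟨u', Finset.disjoint_right.1 hUd (by simp), ru', hgu⟩
    have ha := ra.2 g hgC hag
    have hb := rb.2 g hgC hbg
    have hbt : IsBt G F C {g} (bt G F C {g}) := hctx.hav.isBt (by simp)
    obtain ⟨x, hx, y, hy, hxy⟩ := hbt.2.1.2 (bt G F C {g} ∩ U) inter_subset_left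
      ⟨a, mem_inter.2 ⟨ha, haU⟩⟩ (fun h => hbU (by
        rw [← h] at hb
        exact (mem_inter.1 hb).2))
    rw [mem_sdiff, mem_inter] at hy
    have hyU : y ∉ U := fun h => hy.2 ⟨hy.1, h⟩
    have hyC := mem_sdiff.1 (hbt.1 hy.1)
    have : y ∈ ({g} : Finset V) := hg (mem_union_left _ (mem_Nb.2
      ⟨hyC.1, hyU, x, (mem_inter.1 hx).2, hxy.symm⟩))
    exact hyC.2 this)
  obtain ⟨L, hL, hLd⟩ := hmen
  have hd01 : Disjoint (L 0) (L 1) := hLd 0 1 (by decide)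
  -- the set containing `u` and the set containing `v`
  obtain ⟨M1, M2, hM1, hM2, c1, c2, hd, hu, hv, i1, i2⟩ : ∃ M1 M2 : Finset V, M1 ⊆ C ∧ M2 ⊆ C ∧
      Conn G M1 ∧ Conn G M2 ∧ Disjoint M1 M2 ∧ u ∈ M1 ∧ v ∈ M2 ∧
      (M1 ∩ {u', v'}).Nonempty ∧ (M2 ∩ {u', v'}).Nonempty := by
    obtain ⟨x, hx⟩ := (hL 0).2.2.1
    obtain ⟨y, hy⟩ := (hL 1).2.2.1
    rw [mem_inter, mem_insert, mem_singleton] at hx hy
    have hxy : x ≠ y := by
      rintro rfl
      exact Finset.disjoint_left.1 hd01 hx.1 hy.1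
    rcases hx with ⟨hx, rfl | rfl⟩
    · rcases hy with ⟨hy, rfl | rfl⟩
      · exact absurd rfl hxy
      · exact ⟨L 0, L 1, (hL 0).1, (hL 1).1, (hL 0).2.1, (hL 1).2.1, hd01, hx, hy,
          (hL 0).2.2.2, (hL 1).2.2.2⟩
    · rcases hy with ⟨hy, rfl | rfl⟩
      · exact ⟨L 1, L 0, (hL 1).1, (hL 0).1, (hL 1).2.1, (hL 0).2.1, hd01.symm, hy, hx,
          (hL 1).2.2.2, (hL 0).2.2.2⟩
      · exact absurd rfl hxy
  obtain ⟨x, hx⟩ := i1
  obtain ⟨y, hy⟩ := i2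
  rw [mem_inter, mem_insert, mem_singleton] at hx hy
  have hxy : x ≠ y := by
    rintro rfl
    exact Finset.disjoint_left.1 hd hx.1 hy.1
  rcases hx with ⟨hx, rfl | rfl⟩
  · rcases hy with ⟨hy, rfl | rfl⟩
    · exact absurd rfl hxy
    · exact cer4_core h2 h5 V G F C hctx φ hF hpos A u v S T A' _ _ S' T' hne hHP hHP' hs hs'
        M1 M2 hM1 hM2 c1 c2 hd hu hv hx hy
  · rcases hy with ⟨hy, rfl | rfl⟩
    · exact cer4_core h2 h5 V G F C hctx φ hF hpos A u v S T A' _ _ S' T' hne hHP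
        (cer4_HPsymm hHP') hs hs' M1 M2 hM1 hM2 c1 c2 hd hu hv hx hy
    · exact absurd rfl hxy

end ErdPos
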