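import Pool.Agent.Helper72.EP.Spec2

/-! # REPL: replacing the arc in a component -/

namespace ErdPos

open Finset

open Classical in
lemma repl_mem_att {V E : Type} {carry : Sym2 V → Set E} {D : Finset E} {U : Finset V} {w : V} :
    w ∈ att carry D U ↔ w ∈ U ∧ ∃ h : Sym2 V, w ∈ h ∧ ∃ f ∈ D, f ∈ carry h := by
  unfold att
  exact mem_filter

theorem st_REPL (h1 : ST_PA) (h2 : ST_CA) (h3 : ST_UARC) : ST_REPL := by
  intro V _ _ E X inc 𝒟 carry TD ZZ y hsys htsys D hD U hU S T hc a b hatt S' T' hp hS'U hfl
  obtain ⟨r1, r2⟩ := h3 V E X inc 𝒟 carry TD ZZ y hsys htsys D hD U hU S T hc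
  have haatt : a ∈ att carry D U := by rw [hatt]; simp
  have hattU : att carry D U ⊆ U := fun w hw => (repl_mem_att.1 hw).1
  have hmematt : ∀ w ∈ U, ∀ h : Sym2 V, w ∈ h → (∃ f ∈ D, f ∈ carry h) → w ∈ att carry D U := by
    intro w hw h hwh hf
    exact repl_mem_att.2 ⟨hw, h, hwh, hf⟩
  obtain ⟨a0, b0, hatt0, hcase⟩ := r2 ⟨a, mem_inter.2 ⟨r1 a haatt, hattU haatt⟩⟩
  have hpair : ({a, b} : Finset V) = {a0, b0} := by rw [← hatt, hatt0]
  have pZ := h1 V ZZ
  have pT := h1 V (TD D)
  have cT := h2 V (TD D)
  obtain ⟨haS', hbS'⟩ := pZ.ends a b S' T' hp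
  rcases hcase with ⟨rfl, hSU⟩ | ⟨hab0, T1, S2, T2, p1, p2, hS2U, hS2S, hcar, _, hT2⟩
  · have h' : ({a, b} : Finset V) = {a0} := by rw [hpair]; simp
    have ha : a = a0 := by
      have : a ∈ ({a0} : Finset V) := by rw [← h']; simp
      exact mem_singleton.1 this
    refine ⟨S, T, hc, fun x hx => ?_⟩
    by_cases hxU : x ∈ U
    · have : x ∈ S ∩ U := mem_inter.2 ⟨hx, hxU⟩
      rw [hSU, mem_singleton] at this
      rw [this, ← ha]
      exact mem_union_left _ haS'
    · exact mem_union_right _ (mem_sdiff.2 ⟨hx, hxU⟩)
  · -- orientation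
    obtain ⟨hab, hsab, p2'⟩ : a ≠ b ∧ s(a, b) = s(a0, b0) ∧ Pth (TD D) a b S2 T2 := by
      have ha : a = a0 ∨ a = b0 := by
        have : a ∈ ({a0, b0} : Finset V) := by rw [← hpair]; simp
        simpa using this
      have hb : b = a0 ∨ b = b0 := by
        have : b ∈ ({a0, b0} : Finset V) := by rw [← hpair]; simp
        simpa using this
      have ha0 : a0 = a ∨ a0 = b := by
        have : a0 ∈ ({a, b} : Finset V) := by rw [hpair]; simp
        simpa using this
      have hb0 : b0 = a ∨ b0 = b := by
        have : b0 ∈ ({a, b} : Finset V) := by rw [hpair]; simp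
        simpa using this
      rcases ha with rfl | rfl
      · have hb' : b0 = b := by
          rcases hb0 with h | h
          · exact absurd h.symm hab0
          · exact h
        subst hb'
        exact ⟨hab0, rfl, p2.symm⟩
      · have hb' : a0 = b := by
          rcases ha0 with h | h
          · exact absurd h hab0
          · exact h
        subst hb'
        exact ⟨hab0.symm, Sym2.eq_swap, p2⟩
    have hnofl : s(a, b) ∈ T' → ¬ (∃ f ∈ D, f ∈ carry s(a, b)) := by
      intro hm hf
      have h4 := (pZ.single a b S' T' hp hab (Or.inl hm)).1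
      have h5 := hfl hf
      rw [h4] at h5
      have h6 : ({a, b} : Finset V).card ≤ 2 := card_le_two
      omega
    have hinS2 : ∀ x, x ∈ S' → x ∈ S2 → x = a ∨ x = b := by
      intro x hx hx2
      have : x ∈ S2 ∩ U := mem_inter.2 ⟨hx2, hS'U hx⟩
      rw [hS2U, ← hpair] at this
      simpa using this
    have hpT : Pth (TD D) a b S' T' := by
      refine pZ.transfer (TD D) a b S' T' hp (fun e he => ?_)
      obtain ⟨x, hx, z, hz, hxz, rfl⟩ := pZ.tmem a b S' T' hp e he
      rw [SimpleGraph.mem_edgeSet]
      by_cases hf : ∀ f ∈ D, f ∉ carry s(x, z)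
      · exact htsys.t1' D hD x z hxz hf
      · exfalso
        push Not at hf
        have hxa := hmematt x (hS'U hx) s(x, z) (by simp) hf
        have hza := hmematt z (hS'U hz) s(x, z) (by simp) hf
        rw [hatt] at hxa hza
        simp only [mem_insert, mem_singleton] at hxa hza
        have hne := hxz.ne
        have hs : s(x, z) = s(a, b) := by
          rcases hxa with rfl | rfl
          · rcases hza with rfl | rfl
            · exact absurd rfl hne
            · rfl
          · rcases hza with rfl | rfl
            · exact Sym2.eq_swap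
            · exact absurd rfl hne
        rw [hs] at hf he
        exact hnofl he hf
    have hTne : T' ≠ T2 := by
      intro hTT
      have hall : ∀ e ∈ T', e = s(a, b) := by
        intro e he
        obtain ⟨x, hx, z, hz, hxz, rfl⟩ := pZ.tmem a b S' T' hp e he
        have he2 : s(x, z) ∈ T2 := hTT ▸ he
        obtain ⟨x', hx', z', hz', hxz', hs⟩ := pT.tmem a b S2 T2 p2' _ he2
        have hxz2 : x ∈ S2 ∧ z ∈ S2 := by
          rw [Sym2.eq_iff] at hs
          rcases hs with ⟨rfl, rfl⟩ | ⟨rfl, rfl⟩
          · exact ⟨hx', hz'⟩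
          · exact ⟨hz', hx'⟩
        have hne := hxz.ne
        rcases hinS2 x hx hxz2.1 with rfl | rfl
        · rcases hinS2 z hz hxz2.2 with rfl | rfl
          · exact absurd rfl hne
          · rfl
        · rcases hinS2 z hz hxz2.2 with rfl | rfl
          · exact Sym2.eq_swap
          · exact absurd rfl hne
      have hcard := pZ.card a b S' T' hp
      have h2c : 2 ≤ S'.card := by
        have : ({a, b} : Finset V) ⊆ S' := by
          intro x hx
          simp only [mem_insert, mem_singleton] at hx
          rcases hx with rfl | rfl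
          · exact haS'
          · exact hbS'
        have h7 := card_le_card this
        rw [card_pair hab] at h7
        exact h7
      have hne : T'.Nonempty := by
        rw [← card_pos]
        omega
      obtain ⟨e, he⟩ := hne
      have heab := hall e he
      rw [heab] at he
      have hT' : T2 = {s(a0, b0)} := by
        rw [← hTT, ← hsab]
        refine subset_antisymm (fun e' he' => ?_) (fun e' he' => ?_)
        · rw [mem_singleton]
          exact hall e' he'
        · rw [mem_singleton] at he'
          rw [he']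
          exact he
      have hf := hT2 hT'
      rw [← hsab] at hf
      exact hnofl he hf
    have hcyc := (cT.mk2 a b S' T' S2 T2 hpT p2' hab (by
      intro x hx
      rw [mem_inter] at hx
      have := hinS2 x hx.1 hx.2
      simpa using this) hTne).1
    refine ⟨S' ∪ S2, T' ∪ T2, ⟨hcyc, fun f hf => ?_⟩, ?_⟩
    · obtain ⟨h, hh, hfh⟩ := hcar f hf
      exact ⟨h, mem_union_right _ hh, hfh⟩
    · intro x hx
      rcases mem_union.1 hx with hx | hx
      · exact mem_union_left _ hx
      · by_cases hxU : x ∈ U
        · have : x ∈ S2 ∩ U := mem_inter.2 ⟨hx, hxU⟩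
          rw [hS2U, ← hpair] at this
          simp only [mem_insert, mem_singleton] at this
          rcases this with rfl | rfl
          · exact mem_union_left _ haS'
          · exact mem_union_left _ hbS'
        · exact mem_union_right _ (mem_sdiff.2 ⟨hS2S hx, hxU⟩)

end ErdPos
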